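import Mathlib
import Pool.Agent.KS6_3.ZL.W90.ZT.Glob4
import Pool.Agent.KS6_3.ZL.Y701.ZT.Tors
import Pool.Agent.KS6_3.ZL.Y701.ZT.Unit

/-!
Two embeddings which agree on the reciprocal roots of the numerator of the zeta function of a layer of a
`ℤ_p`-tower differ on the roots of unity by a root of unity of `ℤ_p`.
-/

set_option autoImplicit false

namespace Pool.Agent.Y701.ZT

open Pool.Agent.H387R3.ZT Pool.Agent.H707R3 Pool.Agent.H412R3.ZT Pool.Agent.W90.ZT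

/-- The exponent `i` is congruent modulo `p ^ n` to a root of unity of `ℤ_p`. -/
def IsTors (p : ℕ) [Fact p.Prime] (n i : ℕ) : Prop :=
  ∃ c : ℤ_[p], (∃ m : ℕ, 0 < m ∧ c ^ m = 1) ∧ (p : ℤ_[p]) ^ n ∣ (i : ℤ_[p]) - c

variable {p : ℕ} [Fact p.Prime]

lemma dvd_of_res {n i : ℕ} {b b' : ℤ_[p]} (h : (i * res n b) % p ^ n = res n b') :
    (p : ℤ_[p]) ^ n ∣ (i : ℤ_[p]) * b - b' := by
  obtain ⟨c, hc⟩ := exists_mul_pow n b
  obtain ⟨c', hc'⟩ := exists_mul_pow n b'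
  have h1 := Nat.div_add_mod (i * res n b) (p ^ n)
  rw [h] at h1
  have h2 : (i : ℤ_[p]) * (res n b : ℤ_[p]) =
      (p : ℤ_[p]) ^ n * ((i * res n b / p ^ n : ℕ) : ℤ_[p]) + (res n b' : ℤ_[p]) := by
    exact_mod_cast h1.symm
  refine ⟨((i * res n b / p ^ n : ℕ) : ℤ_[p]) + i * c - c', ?_⟩
  conv_lhs => rw [hc, hc']
  linear_combination h2

/-- The subfield on which two embeddings agree. -/
def eqf {T Ω : Type} [Field T] [Field Ω] [Algebra ℚ T] [Algebra ℚ Ω] (φ φ' : T →ₐ[ℚ] Ω) :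
    IntermediateField ℚ T where
  carrier := {t | φ t = φ' t}
  mul_mem' := by
    intro a b ha hb
    simp only [Set.mem_ofPred_eq] at ha hb ⊢
    rw [map_mul, map_mul, ha, hb]
  add_mem' := by
    intro a b ha hb
    simp only [Set.mem_ofPred_eq] at ha hb ⊢
    rw [map_add, map_add, ha, hb]
  algebraMap_mem' := by
    intro r
    simp
  inv_mem' := by
    intro a ha
    simp only [Set.mem_ofPred_eq] at ha ⊢
    rw [map_inv₀, map_inv₀, ha]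

theorem core_sharp {ι : Type*} (ρ : ι → ℤ_[p]) (d : ι → ℕ) (hd : ∀ v, d v ≠ 0)
    (hfin : ∀ k, {v | d v ≤ k}.Finite) (v₀ : ι) (hv₀ : ¬ (p : ℤ_[p]) ∣ ρ v₀) :
    ∃ N : ℕ, ∀ n, N ≤ n → ∀ B : Multiset ℂ_[p],
      ∀ (T : Type) [Field T] [Algebra ℚ T] (φ φ' : T →ₐ[ℚ] ℂ_[p]),
        (∀ β ∈ B, ∃ t : T, φ t = β ∧ φ' t = β) → ∀ ζ : T, IsPrimitiveRoot ζ (p ^ n) →
        eulerL ρ d n (φ ζ) = recipProd B →
          ∃ i : ℕ, φ' ζ = φ ζ ^ i ∧ IsTors p n i := by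
  classical
  have hp : p.Prime := Fact.out
  set k := d v₀ with hk
  set M : ℤ_[p] →₀ ℕ := (theta ρ d (hfin k).toFinset k).coeff with hM
  have hb₀ : ρ v₀ ∈ M.support := mem_support_theta ρ d _ (by simp [hk]) (hd v₀)
  have hunit : IsUnit (ρ v₀) := by
    rw [PadicInt.isUnit_iff]
    by_contra hne
    apply hv₀
    rw [← PadicInt.norm_lt_one_iff_dvd]
    exact lt_of_le_of_ne (PadicInt.norm_le_one _) hne
  obtain ⟨N₁, hN₁⟩ := exists_distinct M.support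
  obtain ⟨N₂, hN₂⟩ := exists_torsion M.support hb₀ hunit
  refine ⟨max (N₁ + 1) N₂, ?_⟩
  intro n hn B T _ _ φ φ' hB ζ hζ hE
  obtain ⟨m, rfl⟩ : ∃ m, n = m + 1 := ⟨n - 1, by omega⟩
  have hne : NeZero (p ^ (m + 1)) := ⟨pow_ne_zero _ hp.ne_zero⟩
  have hz : IsPrimitiveRoot (φ ζ) (p ^ (m + 1)) := hζ.map_of_injective φ.injective
  have hz' : IsPrimitiveRoot (φ' ζ) (p ^ (m + 1)) := hζ.map_of_injective φ'.injective
  have hz1 : (φ ζ) ^ p ^ (m + 1) = 1 := hz.pow_eq_one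
  have hcoeff := coeff_eulerL ρ d hd hfin hz1
  let K : IntermediateField ℚ ℂ_[p] := (eqf φ φ').map φ
  have hBK : ∀ β ∈ B, β ∈ K := by
    intro β hβ
    obtain ⟨t, ht, ht'⟩ := hB β hβ
    exact ⟨t, (ht.trans ht'.symm : φ t = φ' t), ht⟩
  have hmem : evSum (m + 1) M (φ ζ) ∈ K := by
    rw [hM, ← hcoeff, hE]
    exact coeff_recipProd_mem' _ B hBK k
  obtain ⟨y, hy, hyz⟩ := hmem
  have hy' : φ y = φ' y := hy
  let Y : T := ∑ b ∈ M.support, ((M b : ℕ) : T) * ζ ^ res (m + 1) b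
  have hY : ∀ ψ : T →ₐ[ℚ] ℂ_[p], ψ Y = evSum (m + 1) M (ψ ζ) := by
    intro ψ
    simp only [Y, map_sum, map_mul, map_natCast, map_pow]
    rfl
  have hYy : Y = y := by
    refine φ.injective ?_
    show φ Y = φ y
    rw [hY φ]
    exact hyz.symm
  have hev : evSum (m + 1) M (φ' ζ) = evSum (m + 1) M (φ ζ) := by
    rw [← hY, ← hY, hYy]
    exact hy'.symm
  obtain ⟨i, hi, hcop, hiw⟩ := (hz.isPrimitiveRoot_iff (k := p ^ (m + 1))).1 hz'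
  have hcop' : Nat.Coprime i p := Nat.Coprime.coprime_dvd_right (dvd_pow_self p (by omega)) hcop
  rw [← hiw] at hev
  refine ⟨i, hiw.symm, ?_⟩
  have hip : ¬ (p : ℤ_[p]) ∣ (i : ℤ_[p]) := by
    intro h1
    rw [← PadicInt.norm_lt_one_iff_dvd] at h1
    have h2 : ‖(i : ℤ_[p])‖ = 1 := by
      rw [PadicInt.norm_natCast_eq_one_iff]
      exact hcop'.symm
    rw [h2] at h1
    exact lt_irrefl _ h1
  refine hN₂ (m + 1) (by omega) (i : ℤ_[p]) hip ?_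
  intro b hb
  obtain ⟨b', hb', hbb⟩ := exists_of_invariant hz M (hN₁ m (by omega)) hcop' hev hb
  exact ⟨b', hb', dvd_of_res hbb⟩

theorem tower_sharp {k F E : Type} [Field k] [Finite k] [CharP k p]
    [Field F] [Algebra k F] [Field E] [Algebra F E] [Algebra k E] [IsScalarTower k F E]
    (h : IsZpTower k F E p) :
    ∃ N : ℕ, ∀ n, N ≤ n → ∀ χ : (E ≃ₐ[F] E) →* ℂ_[p]ˣ, orderOf χ = p ^ n →
      ∀ B : Multiset ℂ_[p], Lfun k χ = recipProd B →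
      ∀ (T : Type) [Field T] [Algebra ℚ T] (φ φ' : T →ₐ[ℚ] ℂ_[p]),
        (∀ β ∈ B, ∃ t : T, φ t = β ∧ φ' t = β) → ∀ ζ : T, IsPrimitiveRoot ζ (p ^ n) →
          ∃ i : ℕ, φ' ζ = φ ζ ^ i ∧ IsTors p n i := by
  have hp : p.Prime := Fact.out
  obtain ⟨Φ⟩ := h.group
  obtain ⟨v₀, hv₀, hv₀'⟩ := exists_unit_frob h Φ
  let ι := {v : Place k F // v.IsUnramified E}
  let ρ : ι → ℤ_[p] := fun v => (Φ (v.1.frob E)).toAdd
  let d : ι → ℕ := fun v => v.1.deg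
  have hd : ∀ v, d v ≠ 0 := fun v => deg_ne_zero h.base v.1
  have hfin : ∀ m, {v : ι | d v ≤ m}.Finite := by
    intro m
    exact (finite_deg_le h.base m).preimage Subtype.val_injective.injOn
  obtain ⟨N, hN⟩ := core_sharp ρ d hd hfin ⟨v₀, hv₀⟩ hv₀'
  refine ⟨N, ?_⟩
  intro n hn χ hχ B hB T _ _ φ φ' hT ζ hζ
  obtain ⟨hz, hval⟩ := char_eq Φ.toMulEquiv χ hχ
  set z : ℂ_[p] := ((χ (Φ.toMulEquiv.symm (Multiplicative.ofAdd 1)) : ℂ_[p]ˣ) : ℂ_[p]) with hzdef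
  have hne : NeZero (p ^ n) := ⟨pow_ne_zero _ hp.ne_zero⟩
  have hφζ : IsPrimitiveRoot (φ ζ) (p ^ n) := hζ.map_of_injective φ.injective
  obtain ⟨j, hj, hcop, hjz⟩ := (hφζ.isPrimitiveRoot_iff (k := p ^ n)).1 hz
  have hζj : IsPrimitiveRoot (ζ ^ j) (p ^ n) := hζ.pow_of_coprime j hcop
  have hE : eulerL ρ d n (φ (ζ ^ j)) = recipProd B := by
    rw [map_pow, hjz, ← hB, Lfun, eulerL]
    congr 1
    funext v
    rw [hval (v.1.frob E)]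
    rfl
  obtain ⟨i, hi, hit⟩ := hN n hn B T φ φ' hT (ζ ^ j) hζj hE
  refine ⟨i, ?_, hit⟩
  obtain ⟨l, -, hl⟩ := hζj.eq_pow_of_pow_eq_one hζ.pow_eq_one
  calc φ' ζ = (φ' (ζ ^ j)) ^ l := by rw [← map_pow, hl]
    _ = ((φ (ζ ^ j)) ^ i) ^ l := by rw [hi]
    _ = ((φ (ζ ^ j)) ^ l) ^ i := by rw [← pow_mul, ← pow_mul, mul_comm]
    _ = φ ζ ^ i := by rw [← map_pow, hl]

theorem layer_sharp {k F E : Type} [Field k] [Finite k] [CharP k p]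
    [Field F] [Algebra k F] [Field E] [Algebra F E] [Algebra k E] [IsScalarTower k F E]
    (h : IsZpTower k F E p) :
    ∃ N : ℕ, ∀ n, N ≤ n → ∀ K : IntermediateField F E, Module.finrank F K = p ^ n →
      ∀ A : Multiset ℂ_[p], RecipRoots p k K A →
      ∀ (T : Type) [Field T] [Algebra ℚ T] (φ φ' : T →ₐ[ℚ] ℂ_[p]),
        (∀ α ∈ A, ∃ t : T, φ t = α ∧ φ' t = α) → ∀ ζ : T, IsPrimitiveRoot ζ (p ^ n) →
          ∃ i : ℕ, φ' ζ = φ ζ ^ i ∧ IsTors p n i := by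
  classical
  obtain ⟨N₁, hN₁⟩ := tower_sharp h
  obtain ⟨N₂, hN₂⟩ := H623R3.ZT.taskG p k F E h
  obtain ⟨N₃, hN₃⟩ := taskF2 p k F E h
  refine ⟨max N₁ (max (N₂ + 1) N₃), ?_⟩
  intro n hn K₀ hK₀ A₀ hA₀ T _ _ φ φ' hT ζ hζ
  obtain ⟨K, A, hKA, rfl, rfl⟩ := exists_family h n K₀ hK₀ A₀ hA₀
  obtain ⟨m, rfl⟩ : ∃ m, n = m + 1 := ⟨n - 1, by omega⟩
  have hm : N₂ ≤ m := by omega
  obtain ⟨s, hs, hfac⟩ := hN₂ K (fun n => (hKA n).1) m hm
  obtain ⟨Φ⟩ := h.group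
  obtain ⟨χ₀, hχ₀⟩ := exists_char Φ.toMulEquiv (m + 1)
  have hB : ∀ χ : (E ≃ₐ[F] E) →* ℂ_[p]ˣ, orderOf χ = p ^ (m + 1) →
      ∃ B : Multiset ℂ_[p], Lfun k χ = recipProd B := fun χ hχ =>
    weil p k F E h (m + 1) χ hχ (hN₃ K A hKA (m + 1) χ (by omega) hχ)
  choose! B hB' using hB
  have hfac2 : recipProd (A (m + 1)) = recipProd (B χ₀) *
      recipProd (A m + ∑ χ ∈ s.erase χ₀, B χ) := by
    rw [← (hKA (m + 1)).2, hfac]
    have h1 : ∏ χ ∈ s, Lfun k χ = recipProd (B χ₀) * recipProd (∑ χ ∈ s.erase χ₀, B χ) := by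
      rw [← recipProd_finset, ← Finset.mul_prod_erase s _ ((hs χ₀).2 hχ₀), hB' χ₀ hχ₀]
      congr 1
      refine Finset.prod_congr rfl fun χ hχ => ?_
      exact hB' χ ((hs χ).1 (Finset.mem_of_mem_erase hχ))
    rw [h1, recipProd_add, ← (hKA m).2]
    ring
  refine hN₁ (m + 1) (by omega) χ₀ hχ₀ (B χ₀) (hB' χ₀ hχ₀) T φ φ' ?_ ζ hζ
  intro β hβ
  by_cases h0 : β = 0
  · exact ⟨0, by rw [map_zero, h0], by rw [map_zero, h0]⟩
  · exact hT β (mem_of_recipProd_eq hfac2 hβ h0)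

end Pool.Agent.Y701.ZT
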