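import Mathlib
import Pool.Agent.KS6_3.ZL.Y701.ZT.Sharp

/-!
Galois theory of the extension generated by roots of unity when all automorphisms act through
roots of unity of `ℤ_p`.
-/

set_option autoImplicit false

open IntermediateField

namespace Pool.Agent.Y701.ZT

variable {p : ℕ} [Fact p.Prime]

section basics

variable {L Ω : Type} [Field L] [Field Ω] [Algebra L Ω]

lemma isIntegral_root {n : ℕ} [NeZero n] {ζ : Ω} (hζ : IsPrimitiveRoot ζ n) : IsIntegral L ζ :=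
  ⟨Polynomial.X ^ n - Polynomial.C 1, Polynomial.monic_X_pow_sub_C 1 (NeZero.ne n), by
    simp [hζ.pow_eq_one]⟩

lemma cyclo {n : ℕ} [NeZero n] {ζ : Ω} (hζ : IsPrimitiveRoot ζ n) :
    IsCyclotomicExtension {n} L L⟮ζ⟯ := by
  change IsCyclotomicExtension {n} L (IntermediateField.adjoin L {ζ}).toSubalgebra
  rw [IntermediateField.adjoin_simple_toSubalgebra_of_isAlgebraic
    (isIntegral_root (L := L) hζ).isAlgebraic]
  exact hζ.adjoin_isCyclotomicExtension L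

lemma gen_prim {n : ℕ} {ζ : Ω} (hζ : IsPrimitiveRoot ζ n) :
    IsPrimitiveRoot (AdjoinSimple.gen L ζ) n := by
  refine IsPrimitiveRoot.of_map_of_injective (f := algebraMap L⟮ζ⟯ Ω) ?_
    (algebraMap L⟮ζ⟯ Ω).injective
  rwa [AdjoinSimple.algebraMap_gen]

end basics

lemma pow_of_modEq {M : Type*} [Field M] {g : M} {N a b : ℕ} (hg : IsPrimitiveRoot g N)
    (h : a ≡ b [MOD N]) : g ^ a = g ^ b := by
  wlog hab : a ≤ b generalizing a b
  · exact (this h.symm (by omega)).symm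
  obtain ⟨t, ht⟩ := (Nat.modEq_iff_dvd' hab).1 h
  have h1 : b = a + N * t := by omega
  rw [h1, pow_add, pow_mul, hg.pow_eq_one, one_pow, mul_one]

lemma modEq_of_pow {M : Type*} [Field M] {g : M} {N a b : ℕ} [NeZero N] (hg : IsPrimitiveRoot g N)
    (h : g ^ a = g ^ b) : a ≡ b [MOD N] := by
  wlog hab : a ≤ b generalizing a b
  · exact (this h.symm (by omega)).symm
  have hg0 : g ≠ 0 := hg.ne_zero (NeZero.ne N)
  have h1 : g ^ (b - a) = 1 := by
    apply mul_left_cancel₀ (pow_ne_zero a hg0)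
    rw [← pow_add, mul_one, Nat.add_sub_cancel' hab, h]
  exact (Nat.modEq_iff_dvd' hab).2 ((hg.pow_eq_one_iff_dvd _).1 h1)

lemma q0_dvd {n : ℕ} (hn : 2 ≤ n) : q0 p ∣ p ^ n := by
  unfold q0
  split_ifs with h
  · subst h
    exact (by norm_num : (4 : ℕ) = 2 ^ 2) ▸ pow_dvd_pow 2 hn
  · exact dvd_pow_self p (by omega)

lemma padic_dvd {m : ℕ} {i : ℕ} (h : (p : ℤ_[p]) ^ m ∣ (i : ℤ_[p]) - 1) : i ≡ 1 [MOD p ^ m] := by
  have h1 : (p : ℤ_[p]) ^ m ∣ (((i : ℤ) - 1 : ℤ) : ℤ_[p]) := by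
    push_cast
    exact h
  rw [PadicInt.pow_p_dvd_int_iff] at h1
  have h2 : (1 : ℤ) ≡ (i : ℤ) [ZMOD ((p ^ m : ℕ) : ℤ)] := by
    rw [Int.modEq_iff_dvd]
    exact_mod_cast h1
  have h3 := (Int.natCast_modEq_iff (a := 1) (b := i) (n := p ^ m)).1 (by exact_mod_cast h2)
  exact h3.symm

/-- An exponent congruent to a root of unity of `ℤ_p` and to `1` modulo `q0 p`. -/
lemma tors_modEq {n i : ℕ} (hn : 2 ≤ n) (h : IsTors p n i) (hi : i ≡ 1 [MOD q0 p]) :
    i ≡ 1 [MOD p ^ n] := by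
  obtain ⟨c, ⟨m, hm, hcm⟩, hc⟩ := h
  have h1 : (q0 p : ℤ_[p]) ∣ (i : ℤ_[p]) - 1 := by
    have h2 : ((q0 p : ℕ) : ℤ) ∣ (i : ℤ) - 1 := by
      have h3 := (Int.natCast_modEq_iff.2 hi.symm)
      rw [Int.modEq_iff_dvd] at h3
      exact_mod_cast h3
    obtain ⟨t, ht⟩ := h2
    refine ⟨(t : ℤ_[p]), ?_⟩
    have h4 := congrArg (Int.cast (R := ℤ_[p])) ht
    push_cast at h4
    exact h4
  have h5 : (q0 p : ℤ_[p]) ∣ (i : ℤ_[p]) - c := by
    refine dvd_trans ?_ hc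
    have h6 := q0_dvd (p := p) hn
    obtain ⟨t, ht⟩ := h6
    refine ⟨(t : ℤ_[p]), ?_⟩
    have h4 := congrArg (Nat.cast (R := ℤ_[p])) ht
    push_cast at h4
    exact h4
  have h7 : (q0 p : ℤ_[p]) ∣ c - 1 := by
    have h8 := dvd_sub h1 h5
    have h9 : ((i : ℤ_[p]) - 1) - ((i : ℤ_[p]) - c) = c - 1 := by ring
    rwa [h9] at h8
  have h10 : c = 1 := torsion_eq_one hm hcm h7
  rw [h10] at hc
  exact padic_dvd hc

section index

variable {L Ω : Type} [Field L] [Field Ω] [Algebra L Ω]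

/-- All automorphisms of `L(ζ)/L` act on `ζ` by exponents which are roots of unity of `ℤ_p`. -/
def ActTors (p : ℕ) [Fact p.Prime] (n : ℕ) (L : Type) {Ω : Type} [Field L] [Field Ω] [Algebra L Ω]
    (ζ : Ω) : Prop :=
  ∀ σ : L⟮ζ⟯ ≃ₐ[L] L⟮ζ⟯, ∃ i : ℕ, σ (AdjoinSimple.gen L ζ) = (AdjoinSimple.gen L ζ) ^ i ∧
    IsTors p n i

theorem finrank_dvd {n : ℕ} (hn : 2 ≤ n) {ζ : Ω} (hζ : IsPrimitiveRoot ζ (p ^ n))
    (hσ : ActTors p n L ζ) : Module.finrank L L⟮ζ⟯ ∣ Nat.totient (q0 p) := by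
  have hp : p.Prime := Fact.out
  have hne : NeZero (p ^ n) := ⟨pow_ne_zero _ hp.ne_zero⟩
  have hq0 : q0 p ≠ 0 := by
    unfold q0
    split_ifs
    · norm_num
    · exact hp.ne_zero
  have hne' : NeZero (q0 p) := ⟨hq0⟩
  have hcyc : IsCyclotomicExtension {p ^ n} L L⟮ζ⟯ := cyclo hζ
  have hgal : IsGalois L L⟮ζ⟯ := IsCyclotomicExtension.isGalois {p ^ n} L L⟮ζ⟯
  have hfd : FiniteDimensional L L⟮ζ⟯ := adjoin.finiteDimensional (isIntegral_root hζ)
  have hg := gen_prim (L := L) hζ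
  rw [← IsGalois.card_aut_eq_finrank]
  let f : (L⟮ζ⟯ ≃ₐ[L] L⟮ζ⟯) →* (ZMod (q0 p))ˣ :=
    (ZMod.unitsMap (q0_dvd (p := p) hn)).comp (hg.autToPow L)
  have hf : Function.Injective f := by
    rw [injective_iff_map_eq_one]
    intro σ hσ1
    obtain ⟨i, hi, hit⟩ := hσ σ
    have h1 := hg.autToPow_spec L σ
    rw [hi] at h1
    set a : (ZMod (p ^ n))ˣ := hg.autToPow L σ with ha
    have h2 : (a : ZMod (p ^ n)).val ≡ i [MOD p ^ n] := modEq_of_pow hg h1
    have h3 : ((a : ZMod (p ^ n)).val : ZMod (q0 p)) = 1 := by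
      have h4 := congrArg (fun u : (ZMod (q0 p))ˣ => (u : ZMod (q0 p))) hσ1
      simp only [f, MonoidHom.comp_apply, ZMod.unitsMap_val, Units.val_one] at h4
      rw [ZMod.natCast_val]
      exact h4
    have h5 : (a : ZMod (p ^ n)).val ≡ 1 [MOD q0 p] := by
      rw [← ZMod.natCast_eq_natCast_iff, h3, Nat.cast_one]
    have h6 : i ≡ 1 [MOD q0 p] := ((h2.of_dvd (q0_dvd (p := p) hn)).symm).trans h5
    have h7 := tors_modEq hn hit h6
    have h8 : a = 1 := by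
      apply Units.ext
      rw [Units.val_one]
      have h9 : (((a : ZMod (p ^ n)).val : ℕ) : ZMod (p ^ n)) = ((1 : ℕ) : ZMod (p ^ n)) := by
        rw [ZMod.natCast_eq_natCast_iff]
        exact h2.trans h7
      rwa [ZMod.natCast_val, ZMod.cast_id', id, Nat.cast_one] at h9
    apply hg.autToPow_injective (K := L)
    rw [map_one]
    exact h8
  have h := Subgroup.card_dvd_of_injective f hf
  rwa [Nat.card_eq_fintype_card (α := (ZMod (q0 p))ˣ), ZMod.card_units_eq_totient] at h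

end index

lemma mem_of_coprime {G : Type*} [Group G] [Finite G] (H : Subgroup G) [H.Normal] {g : G} {w : ℕ}
    (hg : g ^ w = 1) (hc : Nat.Coprime w H.index) : g ∈ H := by
  have h1 : (QuotientGroup.mk g : G ⧸ H) ^ w = 1 := by
    rw [← QuotientGroup.mk_pow, hg, QuotientGroup.mk_one]
  have h2 : (QuotientGroup.mk g : G ⧸ H) ^ H.index = 1 := by
    rw [Subgroup.index]
    exact pow_card_eq_one'
  have h3 : orderOf (QuotientGroup.mk g : G ⧸ H) ∣ Nat.gcd w H.index :=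
    Nat.dvd_gcd (orderOf_dvd_of_pow_eq_one h1) (orderOf_dvd_of_pow_eq_one h2)
  rw [hc.gcd_eq_one, Nat.dvd_one, orderOf_eq_one_iff, QuotientGroup.eq_one_iff] at h3
  exact h3

section sub

variable {k₀ Ω : Type} [Field k₀] [Field Ω] [Algebra k₀ Ω]

/-- An element of `k₀(ζ)` fixed by all automorphisms of `L(ζ)/L` lies in `L`. -/
lemma mem_of_fixed {n : ℕ} (L : IntermediateField k₀ Ω) {ζ : Ω} (hζ : IsPrimitiveRoot ζ (p ^ n))
    (x : L⟮ζ⟯) (hx : ∀ σ : L⟮ζ⟯ ≃ₐ[L] L⟮ζ⟯, σ x = x) : (x : Ω) ∈ L := by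
  have hp : p.Prime := Fact.out
  have hne : NeZero (p ^ n) := ⟨pow_ne_zero _ hp.ne_zero⟩
  have hcyc : IsCyclotomicExtension {p ^ n} L L⟮ζ⟯ := cyclo hζ
  have hgal : IsGalois L L⟮ζ⟯ := IsCyclotomicExtension.isGalois {p ^ n} L L⟮ζ⟯
  have hfd : FiniteDimensional L L⟮ζ⟯ := adjoin.finiteDimensional (isIntegral_root hζ)
  have h1 := (IsGalois.mem_bot_iff_fixed x).2 hx
  rw [IntermediateField.mem_bot] at h1
  obtain ⟨y, hy⟩ := h1
  have h2 : ((algebraMap L L⟮ζ⟯ y : L⟮ζ⟯) : Ω) = (x : Ω) := congrArg _ hy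
  rw [← h2]
  exact y.2

/-- Automorphism powers. -/
lemma aut_pow {A B : Type*} [CommSemiring A] [Semiring B] [Algebra A B] (σ : B ≃ₐ[A] B) {g : B} {i : ℕ}
    (h : σ g = g ^ i) (j : ℕ) : (σ ^ j) g = g ^ i ^ j := by
  induction j with
  | zero => simp
  | succ j ih =>
    rw [pow_succ', AlgEquiv.mul_apply, ih, map_pow, h, ← pow_mul, ← pow_succ']

/-- Odd `p`: a subfield of `k₀(μ_{p ^ n})` of degree a power of `p` is contained in `L`. -/
theorem sub_mem_odd {n : ℕ} (hp2 : p ≠ 2) (L : IntermediateField k₀ Ω) {ζ : Ω}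
    (hζ : IsPrimitiveRoot ζ (p ^ n)) (hσ : ActTors p n L ζ) (B : IntermediateField k₀ Ω)
    (hB : B ≤ k₀⟮ζ⟯) (hdeg : ∃ j : ℕ, Module.finrank k₀ B = p ^ j) : B ≤ L := by
  classical
  have hp : p.Prime := Fact.out
  have hne : NeZero (p ^ n) := ⟨pow_ne_zero _ hp.ne_zero⟩
  intro x hx
  set g : L⟮ζ⟯ := AdjoinSimple.gen L ζ with hgdef
  have hg : IsPrimitiveRoot g (p ^ n) := gen_prim (L := L) hζ
  let Z : IntermediateField k₀ L⟮ζ⟯ := k₀⟮g⟯
  have hcyc : IsCyclotomicExtension {p ^ n} k₀ Z := cyclo hg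
  have hgal : IsGalois k₀ Z := IsCyclotomicExtension.isGalois {p ^ n} k₀ Z
  have hfd : FiniteDimensional k₀ Z := adjoin.finiteDimensional (isIntegral_root hg)
  let ι : L⟮ζ⟯ →ₐ[k₀] Ω := (L⟮ζ⟯.val).restrictScalars k₀
  let κ : Z →ₐ[k₀] Ω := ι.comp Z.val
  have hκ : κ.fieldRange = k₀⟮ζ⟯ := by
    have h1 : κ.fieldRange = Z.map ι := by
      ext y
      constructor
      · rintro ⟨t, rfl⟩
        exact ⟨t.1, t.2, rfl⟩
      · rintro ⟨t, ht, rfl⟩
        exact ⟨⟨t, ht⟩, rfl⟩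
    rw [h1, IntermediateField.adjoin_map, Set.image_singleton]
    rfl
  let B' : IntermediateField k₀ Z := B.comap κ
  have hB'map : B'.map κ = B := by
    ext y
    constructor
    · rintro ⟨t, ht, rfl⟩
      exact ht
    · intro hy
      have h2 : y ∈ κ.fieldRange := by rw [hκ]; exact hB hy
      obtain ⟨t, rfl⟩ := h2
      exact ⟨t, hy, rfl⟩
  obtain ⟨j, hj⟩ := hdeg
  have hdeg' : Module.finrank k₀ B' = p ^ j := by
    rw [← hj]
    conv_rhs => rw [← hB'map]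
    exact (IntermediateField.equivMap B' κ).toLinearEquiv.finrank_eq
  obtain ⟨t, htB, htx⟩ : ∃ t : Z, t ∈ B' ∧ κ t = x := by
    rw [← hB'map] at hx
    obtain ⟨t, ht, h3⟩ := hx
    exact ⟨t, ht, h3⟩
  have hxt : ((t : L⟮ζ⟯) : Ω) = x := htx
  rw [← hxt]
  apply mem_of_fixed L hζ
  intro σ
  obtain ⟨i, hi, hit⟩ := hσ σ
  have hi1 : i ^ (p - 1) ≡ 1 [MOD p ^ n] := by
    obtain ⟨c, ⟨m, hm, hcm⟩, hc⟩ := hit
    have h4 : (p : ℤ_[p]) ^ n ∣ ((i ^ (p - 1) : ℕ) : ℤ_[p]) - c ^ (p - 1) := by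
      push_cast
      exact hc.trans (sub_dvd_pow_sub_pow _ _ _)
    have hc0 : (PadicInt.toZMod (p := p)) c ≠ 0 := by
      intro h0
      have := congrArg (PadicInt.toZMod (p := p)) hcm
      rw [map_pow, h0, map_one, zero_pow hm.ne'] at this
      exact zero_ne_one this
    have h5 : (PadicInt.toZMod (p := p)) (c ^ (p - 1) - 1) = 0 := by
      rw [map_sub, map_pow, map_one, ZMod.pow_card_sub_one_eq_one hc0, sub_self]
    have h6 : (q0 p : ℤ_[p]) ∣ c ^ (p - 1) - 1 := by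
      have h7 : q0 p = p := by
        unfold q0
        rw [if_neg hp2]
      rw [h7, ← PadicInt.norm_lt_one_iff_dvd]
      have h8 : c ^ (p - 1) - 1 ∈ RingHom.ker (PadicInt.toZMod (p := p)) := h5
      rw [PadicInt.ker_toZMod, IsLocalRing.mem_maximalIdeal, PadicInt.mem_nonunits] at h8
      exact h8
    have h9 : c ^ (p - 1) = 1 := by
      refine torsion_eq_one hm ?_ h6
      rw [← pow_mul, mul_comm, pow_mul, hcm, one_pow]
    rw [h9] at h4
    exact padic_dvd h4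
  let σ₀ : L⟮ζ⟯ ≃ₐ[k₀] L⟮ζ⟯ := σ.restrictScalars k₀
  let τ : Z ≃ₐ[k₀] Z := σ₀.restrictNormal Z
  have hτ : ∀ y : Z, ((τ y : Z) : L⟮ζ⟯) = σ (y : L⟮ζ⟯) := fun y =>
    σ₀.restrictNormal_commutes Z y
  have hgZ : g ∈ Z := mem_adjoin_simple_self k₀ g
  have hτg : τ ⟨g, hgZ⟩ = ⟨g, hgZ⟩ ^ i := by
    apply Subtype.ext
    rw [hτ]
    exact hi
  have hτw : τ ^ (p - 1) = 1 := by
    have hgen : IsPrimitiveRoot (⟨g, hgZ⟩ : Z) (p ^ n) := gen_prim (L := k₀) hg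
    have h10 : (τ ^ (p - 1)) ⟨g, hgZ⟩ = ⟨g, hgZ⟩ := by
      rw [aut_pow τ hτg]
      have h11 : (⟨g, hgZ⟩ : Z) ^ i ^ (p - 1) = (⟨g, hgZ⟩ : Z) ^ 1 := pow_of_modEq hgen hi1
      rw [h11, pow_one]
    apply hgen.autToPow_injective (K := k₀)
    rw [map_one]
    apply Units.ext
    have h12 := hgen.autToPow_spec k₀ (τ ^ (p - 1))
    rw [h10] at h12
    set a : (ZMod (p ^ n))ˣ := hgen.autToPow k₀ (τ ^ (p - 1)) with ha
    have h13 : (a : ZMod (p ^ n)).val ≡ 1 [MOD p ^ n] :=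
      modEq_of_pow hgen (h12.trans (pow_one _).symm)
    have h14 : (((a : ZMod (p ^ n)).val : ℕ) : ZMod (p ^ n)) = ((1 : ℕ) : ZMod (p ^ n)) := by
      rw [ZMod.natCast_eq_natCast_iff]
      exact h13
    rwa [ZMod.natCast_val, ZMod.cast_id', id, Nat.cast_one] at h14
  have hcomm : ∀ a b : Z ≃ₐ[k₀] Z, a * b = b * a := by
    intro a b
    have hgen : IsPrimitiveRoot (⟨g, hgZ⟩ : Z) (p ^ n) := gen_prim (L := k₀) hg
    apply hgen.autToPow_injective (K := k₀)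
    rw [map_mul, map_mul, mul_comm]
  have hnormal : (B'.fixingSubgroup).Normal := by
    constructor
    intro a ha b
    rw [hcomm b a, mul_assoc, mul_inv_cancel, mul_one]
    exact ha
  have hcop : Nat.Coprime (p - 1) (B'.fixingSubgroup).index := by
    rw [← IntermediateField.finrank_eq_fixingSubgroup_index, hdeg']
    apply Nat.Coprime.pow_right
    have h20 : Nat.Coprime (p - 1) (p - 1 + 1) := by simp
    rwa [Nat.sub_add_cancel hp.one_lt.le] at h20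
  have hmem := mem_of_coprime B'.fixingSubgroup hτw hcop
  have hfix : τ t = t := by
    rw [IntermediateField.mem_fixingSubgroup_iff] at hmem
    exact hmem t htB
  have h15 := hτ t
  rw [hfix] at h15
  exact h15.symm

end sub

end Pool.Agent.Y701.ZT
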