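import Mathlib
import Pool.Agent.KS6_3.ZL.Y701.ZT.Gal

/-!
The automorphisms of the extension of the splitting field of the numerator of the zeta function which is
generated by roots of unity of `p`-power order.
-/

set_option autoImplicit false

open IntermediateField

namespace Pool.Agent.Y701.ZT

open Pool.Agent.H387R3.ZT Pool.Agent.H707R3 Pool.Agent.H412R3.ZT Pool.Agent.W90.ZT

variable {p : ℕ} [Fact p.Prime]

/-- For `p = 2` the exponents are `1` and `-1`. -/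
lemma tors_two {n i : ℕ} (h2 : p = 2) (h : IsTors p n i) :
    i ≡ 1 [MOD p ^ n] ∨ p ^ n ∣ i + 1 := by
  subst h2
  obtain ⟨c, ⟨m, hm, hcm⟩, hc⟩ := h
  have hq : q0 2 = 4 := rfl
  have hker : ∀ x : ℤ_[2], (PadicInt.toZModPow (p := 2) 2) x = 0 → ((q0 2 : ℕ) : ℤ_[2]) ∣ x := by
    intro x hx
    have h1 : x ∈ RingHom.ker (PadicInt.toZModPow (p := 2) 2) := hx
    rw [PadicInt.ker_toZModPow, Ideal.mem_span_singleton] at h1
    rw [hq]
    have h2 : (((2 : ℕ) : ℤ_[2]) ^ 2) = ((4 : ℕ) : ℤ_[2]) := by norm_num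
    rwa [h2] at h1
  have hunit : IsUnit ((PadicInt.toZModPow (p := 2) 2) c) := by
    apply IsUnit.of_pow_eq_one (n := m) _ hm.ne'
    rw [← map_pow, hcm, map_one]
  have hcases : ∀ u : ZMod (2 ^ 2), IsUnit u → u = 1 ∨ u = -1 := by decide
  rcases hcases _ hunit with h3 | h3
  · left
    have h4 : c = 1 := by
      apply torsion_eq_one hm hcm
      apply hker
      rw [map_sub, map_one, h3, sub_self]
    rw [h4] at hc
    exact padic_dvd hc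
  · right
    have h4 : -c = 1 := by
      apply torsion_eq_one (m := 2 * m) (by omega)
      · rw [pow_mul, neg_sq, ← pow_mul, mul_comm, pow_mul, hcm, one_pow]
      · apply hker
        rw [map_sub, map_neg, map_one, h3]
        decide
    have h5 : c = -1 := by linear_combination -h4
    rw [h5, sub_neg_eq_add] at hc
    have h6 : ((2 : ℕ) : ℤ_[2]) ^ n ∣ (((i : ℤ) + 1 : ℤ) : ℤ_[2]) := by
      push_cast at hc ⊢
      exact hc
    rw [PadicInt.pow_p_dvd_int_iff] at h6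
    exact_mod_cast h6

section two

variable {k₀ Ω : Type} [Field k₀] [Field Ω] [Algebra k₀ Ω]

lemma act_two {n : ℕ} (h2 : p = 2) (L : IntermediateField k₀ Ω) {ζ : Ω}
    (hζ : IsPrimitiveRoot ζ (p ^ n)) (hσ : ActTors p n L ζ) (σ : L⟮ζ⟯ ≃ₐ[L] L⟮ζ⟯) :
    σ (AdjoinSimple.gen L ζ) = AdjoinSimple.gen L ζ ∨
      σ (AdjoinSimple.gen L ζ) = (AdjoinSimple.gen L ζ)⁻¹ := by
  have hg := gen_prim (L := L) hζ
  obtain ⟨i, hi, hit⟩ := hσ σ
  rcases tors_two h2 hit with h | h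
  · left
    rw [hi, pow_of_modEq hg h, pow_one]
  · right
    rw [hi]
    apply eq_inv_of_mul_eq_one_left
    rw [← pow_succ]
    exact (hg.pow_eq_one_iff_dvd _).2 h

theorem add_inv_mem {n : ℕ} (h2 : p = 2) (L : IntermediateField k₀ Ω) {ζ : Ω}
    (hζ : IsPrimitiveRoot ζ (p ^ n)) (hσ : ActTors p n L ζ) : ζ + ζ⁻¹ ∈ L := by
  have h := mem_of_fixed L hζ (AdjoinSimple.gen L ζ + (AdjoinSimple.gen L ζ)⁻¹) (by
    intro σ
    rw [map_add, map_inv₀]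
    rcases act_two h2 L hζ hσ σ with h | h
    · rw [h]
    · rw [h, inv_inv, add_comm])
  simpa using h

end two

/-- Two algebra homomorphisms which agree on `g` agree on the field generated by `g`. -/
lemma eq_on_adjoin {T Ω : Type} [Field T] [Field Ω] [Algebra ℚ T] [Algebra ℚ Ω]
    (φ φ' : T →ₐ[ℚ] Ω) {g : T} (h : φ g = φ' g) {x : T} (hx : x ∈ ℚ⟮g⟯) : φ x = φ' x := by
  have h1 : ℚ⟮g⟯ ≤ eqf φ φ' := by
    rw [IntermediateField.adjoin_simple_le_iff]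
    exact h
  exact h1 hx

theorem sub_mem_two {n : ℕ} (h2 : p = 2) (L : IntermediateField ℚ ℂ) {ζ : ℂ}
    (hζ : IsPrimitiveRoot ζ (p ^ n)) (hσ : ActTors p n L ζ) (B : IntermediateField ℚ ℂ)
    (hB : B ≤ ℚ⟮ζ⟯) (hreal : ∀ x ∈ B, (starRingEnd ℂ) x = x) : B ≤ L := by
  have hp : p.Prime := Fact.out
  intro x hx
  set g : L⟮ζ⟯ := AdjoinSimple.gen L ζ with hgdef
  let ι : L⟮ζ⟯ →ₐ[ℚ] ℂ := (L⟮ζ⟯.val).restrictScalars ℚ
  have hmap : (ℚ⟮g⟯).map ι = ℚ⟮ζ⟯ := by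
    rw [IntermediateField.adjoin_map, Set.image_singleton]
    rfl
  obtain ⟨t, ht, htx⟩ : ∃ t ∈ ℚ⟮g⟯, ι t = x := by
    have h3 := hB hx
    rw [← hmap] at h3
    obtain ⟨t, ht, h4⟩ := h3
    exact ⟨t, ht, h4⟩
  have hxt : (t : ℂ) = x := htx
  rw [← hxt]
  apply mem_of_fixed L hζ
  intro σ
  let σ₀ : L⟮ζ⟯ →ₐ[ℚ] L⟮ζ⟯ := (σ.toAlgHom).restrictScalars ℚ
  rcases act_two h2 L hζ hσ σ with h | h
  · have h5 := eq_on_adjoin (ι.comp σ₀) ι (g := g) (by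
      show ι (σ g) = ι g
      rw [h]) ht
    exact ι.injective h5
  · let cj : ℂ →ₐ[ℚ] ℂ := (starRingEnd ℂ).toRatAlgHom
    have h5 := eq_on_adjoin (ι.comp σ₀) (cj.comp ι) (g := g) (by
      show ι (σ g) = (starRingEnd ℂ) (ι g)
      rw [h, map_inv₀]
      show ζ⁻¹ = (starRingEnd ℂ) ζ
      have h6 : ‖ζ‖ = 1 := hζ.norm'_eq_one (pow_ne_zero _ hp.ne_zero)
      rw [Complex.inv_def, Complex.normSq_eq_norm_sq, h6]
      simp) ht
    have h7 : ι (σ t) = (starRingEnd ℂ) x := by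
      rw [← htx]
      exact h5
    rw [hreal x hx, ← htx] at h7
    exact ι.injective h7

theorem local_act {k F E : Type} [Field k] [Finite k] [CharP k p]
    [Field F] [Algebra k F] [Field E] [Algebra F E] [Algebra k E] [IsScalarTower k F E]
    (h : IsZpTower k F E p) :
    ∃ N : ℕ, ∀ n, N ≤ n → ∀ K : IntermediateField F E, Module.finrank F K = p ^ n →
      ∀ A : Multiset ℂ_[p], RecipRoots p k K A →
      ∀ L : IntermediateField ℚ_[p] ℂ_[p], (∀ α ∈ A, α ∈ L) →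
      ∀ z : ℂ_[p], IsPrimitiveRoot z (p ^ n) → ActTors p n L z := by
  obtain ⟨N, hN⟩ := layer_sharp h
  refine ⟨N, ?_⟩
  intro n hn K hK A hA L hL z hz σ
  let φ : L⟮z⟯ →ₐ[ℚ] ℂ_[p] := (L⟮z⟯.val : L⟮z⟯ →+* ℂ_[p]).toRatAlgHom
  let σ₀ : L⟮z⟯ →ₐ[ℚ] L⟮z⟯ := (σ : L⟮z⟯ →+* L⟮z⟯).toRatAlgHom
  obtain ⟨i, hi, hit⟩ := hN n hn K hK A hA L⟮z⟯ φ (φ.comp σ₀) (by
    intro α hα
    refine ⟨algebraMap L L⟮z⟯ ⟨α, hL α hα⟩, rfl, ?_⟩
    show φ (σ (algebraMap L L⟮z⟯ ⟨α, hL α hα⟩)) = α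
    rw [AlgEquiv.commutes]
    rfl) (AdjoinSimple.gen L z) (gen_prim (L := L) hz)
  refine ⟨i, ?_, hit⟩
  refine φ.injective ?_
  show φ (σ (AdjoinSimple.gen L z)) = φ ((AdjoinSimple.gen L z) ^ i)
  rw [map_pow]
  exact hi

theorem global_act {k F E : Type} [Field k] [Finite k] [CharP k p]
    [Field F] [Algebra k F] [Field E] [Algebra F E] [Algebra k E] [IsScalarTower k F E]
    (h : IsZpTower k F E p) :
    ∃ N : ℕ, ∀ n, N ≤ n → ∀ K : IntermediateField F E, Module.finrank F K = p ^ n →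
      ∀ A : Multiset ℂ, zetaR ℂ k K * (1 - PowerSeries.X) *
        (1 - PowerSeries.C (Nat.card k : ℂ) * PowerSeries.X) = rp A →
      FiniteDimensional ℚ (IntermediateField.adjoin ℚ {α : ℂ | α ∈ A}) ∧
      ∀ ζ : ℂ, IsPrimitiveRoot ζ (p ^ n) →
        ActTors p n (IntermediateField.adjoin ℚ {α : ℂ | α ∈ A}) ζ := by
  classical
  obtain ⟨N, hN⟩ := layer_sharp h
  refine ⟨N, ?_⟩
  intro n hn K hK A hA
  have hp : p.Prime := Fact.out
  have hne : NeZero (p ^ n) := ⟨pow_ne_zero _ hp.ne_zero⟩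
  have hfdK : FiniteDimensional F K := FiniteDimensional.of_finrank_pos (by
    rw [hK]; exact pow_pos (Fact.out : p.Prime).pos n)
  have hC : IsCurveFunctionField k K := curve_layer h K
  have hd : ∀ v : Place k K, v.deg ≠ 0 := deg_ne_zero hC
  have hfin : ∀ m, {v : Place k K | v.deg ≤ m}.Finite := finite_deg_le hC
  set f := numZ hfin with hf
  have hA' : rp A = PowerSeries.map (Int.castRingHom ℂ) f := by
    rw [← hA, map_numZ ℂ hd hfin]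
  have hAint := isIntegral_of_rp A f hA'
  have hAfin : Set.Finite {α : ℂ | α ∈ A} :=
    A.toFinset.finite_toSet.subset (fun x hx => by simpa using hx)
  set L := IntermediateField.adjoin ℚ {α : ℂ | α ∈ A} with hL
  have hLfd : FiniteDimensional ℚ L := by
    have : Finite ↑({α : ℂ | α ∈ A}) := hAfin.to_subtype
    exact IntermediateField.finiteDimensional_adjoin (fun x hx => hAint x hx)
  refine ⟨hLfd, ?_⟩
  intro ζ hζ σ
  have hfd2 : FiniteDimensional L L⟮ζ⟯ := adjoin.finiteDimensional (isIntegral_root hζ)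
  have hfd3 : FiniteDimensional ℚ L⟮ζ⟯ := FiniteDimensional.trans ℚ L L⟮ζ⟯
  have halg : Algebra.IsAlgebraic ℚ L⟮ζ⟯ := Algebra.IsAlgebraic.of_finite ℚ L⟮ζ⟯
  let φ : L⟮ζ⟯ →ₐ[ℚ] ℂ_[p] := IsAlgClosed.lift
  let σ₀ : L⟮ζ⟯ →ₐ[ℚ] L⟮ζ⟯ := (σ.toAlgHom).restrictScalars ℚ
  have hmemL : ∀ α ∈ A, α ∈ L := fun α hα => IntermediateField.subset_adjoin _ _ hα
  let B : Multiset L⟮ζ⟯ := A.pmap (fun α h => algebraMap L L⟮ζ⟯ ⟨α, h⟩) hmemL
  have hBA : B.map (L⟮ζ⟯.val : L⟮ζ⟯ →+* ℂ) = A := by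
    rw [Multiset.map_pmap]
    show Multiset.pmap (fun a _ => a) A hmemL = A
    rw [Multiset.pmap_eq_map, Multiset.map_id']
  have hfT : PowerSeries.map (Int.castRingHom L⟮ζ⟯) f = rp B := by
    apply map_injective_ps (L⟮ζ⟯.val : L⟮ζ⟯ →+* ℂ)
    rw [map_map_int, map_rp, hBA, hA']
  have hR : RecipRoots p k K (B.map (φ : L⟮ζ⟯ →+* ℂ_[p])) := by
    show zetaP p k K * (1 - PowerSeries.X) *
      (1 - PowerSeries.C (Nat.card k : ℂ_[p]) * PowerSeries.X) =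
        rp (B.map (φ : L⟮ζ⟯ →+* ℂ_[p]))
    rw [zetaP_eq_zetaR, map_numZ ℂ_[p] hd hfin, ← map_map_int (φ : L⟮ζ⟯ →+* ℂ_[p]), ← hf, hfT,
      map_rp]
  obtain ⟨i, hi, hit⟩ := hN n hn K hK _ hR L⟮ζ⟯ φ (φ.comp σ₀) (by
    intro β hβ
    rw [Multiset.mem_map] at hβ
    obtain ⟨b, hb, rfl⟩ := hβ
    refine ⟨b, rfl, ?_⟩
    rw [Multiset.mem_pmap] at hb
    obtain ⟨α, hα, rfl⟩ := hb
    show φ (σ (algebraMap L L⟮ζ⟯ ⟨α, hmemL α hα⟩)) = φ (algebraMap L L⟮ζ⟯ ⟨α, hmemL α hα⟩)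
    rw [AlgEquiv.commutes]) (AdjoinSimple.gen L ζ) (gen_prim (L := L) hζ)
  refine ⟨i, ?_, hit⟩
  refine φ.injective ?_
  show φ (σ (AdjoinSimple.gen L ζ)) = φ ((AdjoinSimple.gen L ζ) ^ i)
  rw [map_pow]
  exact hi

end Pool.Agent.Y701.ZT
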