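import Mathlib
import Pool.Agent.KS6_3.ZL.Y701.ZT.Tors
import Pool.Agent.KS6_3.ZL.H707R3.TowerL

/-!
Symmetries of formal sums with `p`-adic exponents.
-/

set_option autoImplicit false

namespace Pool.Agent.Y701.ZT

open Pool.Agent.H707R3

variable {p : ℕ} [Fact p.Prime]

/-- The exponent `i` is congruent modulo `p ^ n` to a root of unity of `ℤ_p`. -/
def IsTor (c : ℤ_[p]) : Prop := ∃ m : ℕ, 0 < m ∧ c ^ m = 1

/-- If a sum of powers of a root of unity with fixed `p`-adic exponents is invariant under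
`z ↦ z ^ u`, then multiplication by `u` preserves multiplicities. -/
theorem mult_of_invariant {K : Type*} [Field K] [CharZero K] {z : K} {n : ℕ}
    (hz : IsPrimitiveRoot z (p ^ (n + 1))) (M : ℤ_[p] →₀ ℕ)
    (hdist : ∀ b ∈ M.support, ∀ b' ∈ M.support, res n b = res n b' → b = b')
    {u : ℕ} (hu : Nat.Coprime u p)
    (h : ∑ b ∈ M.support, (M b : K) * (z ^ u) ^ res (n + 1) b =
      ∑ b ∈ M.support, (M b : K) * z ^ res (n + 1) b)
    {b₀ b' : ℤ_[p]} (hb₀ : b₀ ∈ M.support) (hb' : b' ∈ M.support)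
    (hbb : (u * res (n + 1) b₀) % p ^ (n + 1) = res (n + 1) b') : M b' = M b₀ := by
  classical
  have hp : p.Prime := Fact.out
  have hpos : 0 < p ^ (n + 1) := pow_pos hp.pos _
  have hposn : 0 < p ^ n := pow_pos hp.pos _
  have hlt : p ^ n < p ^ (n + 1) := Nat.pow_lt_pow_right hp.one_lt (Nat.lt_succ_self n)
  set q := p ^ (n + 1) with hq
  have hqn : p ^ n ∣ q := pow_dvd_pow p (Nat.le_succ n)
  by_contra hcon
  let a : ℕ → ℤ := fun j => (∑ b ∈ M.support with res (n + 1) b = j, (M b : ℤ)) -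
    ∑ b ∈ M.support with (u * res (n + 1) b) % q = j, (M b : ℤ)
  have ha : ∑ j ∈ Finset.range q, (a j : K) * z ^ j = 0 := by
    have h1 : ∑ j ∈ Finset.range q,
        ((∑ b ∈ M.support with res (n + 1) b = j, (M b : ℤ) : ℤ) : K) * z ^ j =
        ∑ b ∈ M.support, (M b : K) * z ^ res (n + 1) b := by
      rw [← Finset.sum_fiberwise_of_maps_to (g := fun b => res (n + 1) b) (t := Finset.range q)
        (fun b _ => Finset.mem_range.2 (res_lt _ _))]
      refine Finset.sum_congr rfl fun j _ => ?_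
      push_cast
      rw [Finset.sum_mul]
      refine Finset.sum_congr rfl fun b hb => ?_
      rw [(Finset.mem_filter.1 hb).2]
    have h2 : ∑ j ∈ Finset.range q,
        ((∑ b ∈ M.support with (u * res (n + 1) b) % q = j, (M b : ℤ) : ℤ) : K) * z ^ j =
        ∑ b ∈ M.support, (M b : K) * (z ^ u) ^ res (n + 1) b := by
      rw [← Finset.sum_fiberwise_of_maps_to (g := fun b => (u * res (n + 1) b) % q)
        (t := Finset.range q) (fun b _ => Finset.mem_range.2 (Nat.mod_lt _ hpos))]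
      refine Finset.sum_congr rfl fun j _ => ?_
      push_cast
      rw [Finset.sum_mul]
      refine Finset.sum_congr rfl fun b hb => ?_
      rw [← (Finset.mem_filter.1 hb).2, ← pow_mul]
      congr 1
      conv_rhs => rw [← Nat.div_add_mod (u * res (n + 1) b) q]
      rw [pow_add, pow_mul, hz.pow_eq_one, one_pow, one_mul]
    have h3 : ∑ j ∈ Finset.range q, (a j : K) * z ^ j =
        (∑ b ∈ M.support, (M b : K) * z ^ res (n + 1) b) -
        ∑ b ∈ M.support, (M b : K) * (z ^ u) ^ res (n + 1) b := by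
      rw [← h1, ← h2, ← Finset.sum_sub_distrib]
      refine Finset.sum_congr rfl fun j _ => ?_
      simp only [a]
      push_cast
      ring
    rw [h3, h, sub_self]
  -- congruences modulo `p ^ n` determine the exponents
  have inj1 : ∀ b ∈ M.support, ∀ c ∈ M.support,
      res (n + 1) b % p ^ n = res (n + 1) c % p ^ n → b = c := by
    intro b hb c hc hbc
    rw [res_mod (Nat.le_succ n) b, res_mod (Nat.le_succ n) c] at hbc
    exact hdist b hb c hc hbc
  have hcop : Nat.Coprime (p ^ n) u := (Nat.Coprime.pow_left n hu.symm)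
  have inj2 : ∀ b ∈ M.support, ∀ c ∈ M.support,
      ((u * res (n + 1) b) % q) % p ^ n = ((u * res (n + 1) c) % q) % p ^ n → b = c := by
    intro b hb c hc hbc
    rw [Nat.mod_mod_of_dvd _ hqn, Nat.mod_mod_of_dvd _ hqn] at hbc
    have h4 : res (n + 1) b ≡ res (n + 1) c [MOD p ^ n] :=
      Nat.ModEq.cancel_left_of_coprime hcop hbc
    exact inj1 b hb c hc h4
  set j₀ := res (n + 1) b' with hj₀
  have hj₀lt : j₀ < q := res_lt _ _
  have ha0 : a j₀ = (M b' : ℤ) - M b₀ := by
    have e1 : (M.support.filter fun b => res (n + 1) b = j₀) = {b'} := by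
      ext b
      simp only [Finset.mem_filter, Finset.mem_singleton]
      constructor
      · rintro ⟨hb, hbj⟩
        exact inj1 b hb b' hb' (by rw [hbj])
      · rintro rfl
        exact ⟨hb', rfl⟩
    have e2 : (M.support.filter fun b => (u * res (n + 1) b) % q = j₀) = {b₀} := by
      ext b
      simp only [Finset.mem_filter, Finset.mem_singleton]
      constructor
      · rintro ⟨hb, hbj⟩
        exact inj2 b hb b₀ hb₀ (by rw [hbj, hbb])
      · rintro rfl
        exact ⟨hb₀, hbb⟩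
    simp only [a]
    rw [e1, e2, Finset.sum_singleton, Finset.sum_singleton]
  have hne0 : a j₀ ≠ 0 := by
    rw [ha0, sub_ne_zero]
    exact_mod_cast hcon
  set j₁ := (j₀ + p ^ n) % q with hj₁
  have hj₁lt : j₁ < q := Nat.mod_lt _ hpos
  have hmod : j₁ % p ^ n = j₀ % p ^ n := by
    rw [hj₁, Nat.mod_mod_of_dvd _ hqn, Nat.add_mod_right]
  have hj01 : j₁ ≠ j₀ := by
    intro h5
    have hmm : j₀ + p ^ n ≡ j₀ + 0 [MOD q] := by
      show (j₀ + p ^ n) % q = (j₀ + 0) % q
      rw [← hj₁, h5, add_zero, Nat.mod_eq_of_lt hj₀lt]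
    have h0 : p ^ n ≡ 0 [MOD q] := Nat.ModEq.add_left_cancel' j₀ hmm
    have hdv : q ∣ p ^ n := (Nat.modEq_zero_iff_dvd).1 h0
    exact absurd (Nat.le_of_dvd hposn hdv) (by omega)
  have hne1 : a j₁ ≠ 0 := by
    rw [relation_mod hz a ha hj₁lt, hmod, ← relation_mod hz a ha hj₀lt]
    exact hne0
  apply hne1
  have f1 : ∑ b ∈ M.support with res (n + 1) b = j₁, (M b : ℤ) = 0 := by
    apply Finset.sum_eq_zero
    intro b hb
    rw [Finset.mem_filter] at hb
    exfalso
    have h6 : b = b' := inj1 b hb.1 b' hb' (by rw [hb.2, hmod])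
    rw [h6] at hb
    exact hj01 hb.2.symm
  have f2 : ∑ b ∈ M.support with (u * res (n + 1) b) % q = j₁, (M b : ℤ) = 0 := by
    apply Finset.sum_eq_zero
    intro b hb
    rw [Finset.mem_filter] at hb
    exfalso
    have h6 : b = b₀ := inj2 b hb.1 b₀ hb₀ (by rw [hb.2, hbb, hmod])
    rw [h6, hbb] at hb
    exact hj01 hb.2.symm
  simp only [a]
  rw [f1, f2, sub_self]

/-- The roots of unity of `ℤ_p` form a finite set. -/
theorem tor_finite : {c : ℤ_[p] | IsTor c}.Finite := by
  have hp : p.Prime := Fact.out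
  have hne : NeZero (p ^ 2) := ⟨pow_ne_zero _ hp.ne_zero⟩
  apply Set.Finite.of_finite_image (f := PadicInt.toZModPow (p := p) 2) (Set.toFinite _)
  rintro c ⟨m, hm, hc⟩ c' ⟨m', hm', hc'⟩ heq
  have h1 : c * c' ^ (m' - 1) = 1 := by
    apply torsion_eq_one (m := m * m') (Nat.mul_pos hm hm')
    · rw [mul_pow, pow_mul, hc, one_pow, one_mul, ← pow_mul, mul_comm, mul_comm m m', mul_assoc,
        pow_mul, hc', one_pow]
    · have h2 : PadicInt.toZModPow (p := p) 2 (c * c' ^ (m' - 1) - 1) = 0 := by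
        rw [map_sub, map_mul, heq, ← map_mul, ← pow_succ', Nat.sub_add_cancel hm', hc', map_one,
          sub_self]
      have h3 : c * c' ^ (m' - 1) - 1 ∈ RingHom.ker (PadicInt.toZModPow (p := p) 2) := h2
      rw [PadicInt.ker_toZModPow, Ideal.mem_span_singleton] at h3
      refine dvd_trans ?_ h3
      unfold q0
      split_ifs with h4
      · subst h4
        exact ⟨1, by norm_num⟩
      · exact dvd_pow_self _ (by norm_num)
  have h5 : c' ^ (m' - 1) * c' = 1 := by
    rw [← pow_succ, Nat.sub_add_cancel hm', hc']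
  calc c = c * (c' ^ (m' - 1) * c') := by rw [h5, mul_one]
    _ = (c * c' ^ (m' - 1)) * c' := by ring
    _ = c' := by rw [h1, one_mul]

/-- `c` is a symmetry of the family of formal sums `M k`. -/
def IsSym (M : ℕ → ℤ_[p] →₀ ℕ) (c : ℤ_[p]) : Prop := IsTor c ∧ ∀ k b, M k (c * b) = M k b

lemma res_eq_of_dvd {n : ℕ} {x y : ℤ_[p]} (h : (p : ℤ_[p]) ^ n ∣ x - y) : res n x = res n y := by
  have h1 : x - y ∈ RingHom.ker (PadicInt.toZModPow (p := p) n) := by
    rw [PadicInt.ker_toZModPow, Ideal.mem_span_singleton]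
    exact h
  have h2 : PadicInt.toZModPow (p := p) n x = PadicInt.toZModPow (p := p) n y := by
    rwa [RingHom.mem_ker, map_sub, sub_eq_zero] at h1
  rw [res, res, h2]

lemma pow_res_of_dvd {K : Type*} [Field K] {z : K} {n i : ℕ} (hz : z ^ p ^ n = 1) {c b : ℤ_[p]}
    (h : (p : ℤ_[p]) ^ n ∣ (i : ℤ_[p]) - c) : (z ^ i) ^ res n b = z ^ res n (c * b) := by
  have hp : p.Prime := Fact.out
  have hne : NeZero (p ^ n) := ⟨pow_ne_zero _ hp.ne_zero⟩
  have h1 : res n (c * b) = (i * res n b) % p ^ n := by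
    have h2 : res n (c * b) = res n (((i * res n b : ℕ) : ℤ_[p])) := by
      apply res_eq_of_dvd
      obtain ⟨t, ht⟩ := exists_mul_pow n b
      obtain ⟨s, hs⟩ := h
      refine ⟨c * t - s * (res n b : ℤ_[p]), ?_⟩
      push_cast
      linear_combination c * ht - (res n b : ℤ_[p]) * hs
    rw [h2, res, map_natCast, ZMod.val_natCast]
  rw [h1, ← pow_mul]
  conv_lhs => rw [← Nat.div_add_mod (i * res n b) (p ^ n)]
  rw [pow_add, pow_mul, hz, one_pow, one_mul]

/-- A symmetry fixes the values. -/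
theorem sum_of_sym {K : Type*} [Field K] {z : K} {n i : ℕ} (hz : z ^ p ^ n = 1)
    (M : ℤ_[p] →₀ ℕ) {c : ℤ_[p]} (hc : IsTor c) (hM : ∀ b, M (c * b) = M b)
    (h : (p : ℤ_[p]) ^ n ∣ (i : ℤ_[p]) - c) :
    ∑ b ∈ M.support, (M b : K) * (z ^ i) ^ res n b = ∑ b ∈ M.support, (M b : K) * z ^ res n b := by
  classical
  obtain ⟨m, hm, hcm⟩ := hc
  have hinv : c ^ (m - 1) * c = 1 := by rw [← pow_succ, Nat.sub_add_cancel hm, hcm]
  have hM' : ∀ j b, M (c ^ j * b) = M b := by
    intro j
    induction j with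
    | zero => intro b; simp
    | succ j ih => intro b; rw [pow_succ', mul_assoc, hM, ih]
  refine Finset.sum_nbij' (fun b => c * b) (fun b => c ^ (m - 1) * b) ?_ ?_ ?_ ?_ ?_
  · intro b hb
    rw [Finsupp.mem_support_iff] at hb ⊢
    rwa [hM]
  · intro b hb
    rw [Finsupp.mem_support_iff] at hb ⊢
    rwa [hM']
  · intro b _
    rw [← mul_assoc, hinv, one_mul]
  · intro b _
    rw [← mul_assoc, mul_comm c, hinv, one_mul]
  · intro b _
    rw [pow_res_of_dvd hz h, hM]

/-- Exponents fixing all values are symmetries, for large `n`. -/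
theorem exists_sym (M : ℕ → ℤ_[p] →₀ ℕ) (k₀ : ℕ) {b₀ : ℤ_[p]} (hb₀ : b₀ ∈ (M k₀).support)
    (hu : IsUnit b₀) :
    ∃ N : ℕ, ∀ n, N ≤ n → ∀ (K : Type) [Field K] [CharZero K] (z : K),
      IsPrimitiveRoot z (p ^ n) → ∀ i : ℕ, Nat.Coprime i p →
      ((∀ k, ∑ b ∈ (M k).support, (M k b : K) * (z ^ i) ^ res n b =
          ∑ b ∈ (M k).support, (M k b : K) * z ^ res n b) ↔
        ∃ c : ℤ_[p], IsSym M c ∧ (p : ℤ_[p]) ^ n ∣ (i : ℤ_[p]) - c) := by
  classical
  have hp : p.Prime := Fact.out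
  obtain ⟨N₁, hN₁⟩ := exists_distinct (M k₀).support
  obtain ⟨N₂, hN₂⟩ := exists_torsion (M k₀).support hb₀ hu
  -- for every non-symmetry a bound
  have hbad : ∀ c : ℤ_[p], ∃ Nc : ℕ, IsTor c → ¬ IsSym M c → ∀ n, Nc ≤ n →
      ∀ (K : Type) [Field K] [CharZero K] (z : K), IsPrimitiveRoot z (p ^ n) → ∀ i : ℕ,
      Nat.Coprime i p → (p : ℤ_[p]) ^ n ∣ (i : ℤ_[p]) - c →
      ¬ (∀ k, ∑ b ∈ (M k).support, (M k b : K) * (z ^ i) ^ res n b =
          ∑ b ∈ (M k).support, (M k b : K) * z ^ res n b) := by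
    intro c
    by_cases hc : IsTor c ∧ ¬ IsSym M c
    · obtain ⟨hc1, hc2⟩ := hc
      have hex : ∃ k, ¬ ∀ b, M k (c * b) = M k b := by
        by_contra hcon
        push Not at hcon
        exact hc2 ⟨hc1, hcon⟩
      obtain ⟨k, hk⟩ := hex
      let S : Finset ℤ_[p] := (M k).support ∪ (M k).support.image (fun b => c * b)
      obtain ⟨N₃, hN₃⟩ := exists_distinct S
      refine ⟨N₃ + 1, fun _ _ n hn K _ _ z hz i hi hic hall => hk ?_⟩
      obtain ⟨m, rfl⟩ : ∃ m, n = m + 1 := ⟨n - 1, by omega⟩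
      have hS : ∀ b ∈ (M k).support, b ∈ S := fun b hb => Finset.mem_union_left _ hb
      have hS' : ∀ b ∈ (M k).support, c * b ∈ S := fun b hb =>
        Finset.mem_union_right _ (Finset.mem_image_of_mem _ hb)
      have hd : ∀ b ∈ (M k).support, ∀ b' ∈ (M k).support, res m b = res m b' → b = b' :=
        fun b hb b' hb' h => hN₃ m (by omega) b (hS b hb) b' (hS b' hb') h
      have hstep : ∀ b ∈ (M k).support, c * b ∈ (M k).support ∧ M k (c * b) = M k b := by
        intro b hb
        obtain ⟨b', hb', hbb⟩ := exists_of_invariant hz (M k) hd hi (hall k) hb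
        have h1 := mult_of_invariant hz (M k) hd hi (hall k) hb hb' hbb
        have h2 : c * b = b' := by
          apply hN₃ (m + 1) (by omega) _ (hS' b hb) _ (hS b' hb')
          apply res_eq_of_dvd
          obtain ⟨t, ht⟩ := exists_mul_pow (m + 1) b
          obtain ⟨t', ht'⟩ := exists_mul_pow (m + 1) b'
          have h3 := Nat.div_add_mod (i * res (m + 1) b) (p ^ (m + 1))
          rw [hbb] at h3
          have h4 : (i : ℤ_[p]) * (res (m + 1) b : ℤ_[p]) =
              (p : ℤ_[p]) ^ (m + 1) * ((i * res (m + 1) b / p ^ (m + 1) : ℕ) : ℤ_[p]) +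
                (res (m + 1) b' : ℤ_[p]) := by
            exact_mod_cast h3.symm
          obtain ⟨s, hs⟩ := hic
          refine ⟨((i * res (m + 1) b / p ^ (m + 1) : ℕ) : ℤ_[p]) + i * t - t' - s * b, ?_⟩
          have h5 : c * b - b' = ((i : ℤ_[p]) * b - b') - ((i : ℤ_[p]) - c) * b := by ring
          have h6 : (i : ℤ_[p]) * b - b' = (p : ℤ_[p]) ^ (m + 1) *
              (((i * res (m + 1) b / p ^ (m + 1) : ℕ) : ℤ_[p]) + i * t - t') := by
            conv_lhs => rw [ht, ht']
            linear_combination h4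
          rw [h5, h6, hs]
          ring
        rw [h2]
        exact ⟨hb', h1⟩
      obtain ⟨m', hm', hcm⟩ := hc1
      intro b
      by_cases hb : b ∈ (M k).support
      · exact (hstep b hb).2
      · have hiter : ∀ (j : ℕ) (x : ℤ_[p]), x ∈ (M k).support → c ^ j * x ∈ (M k).support := by
          intro j
          induction j with
          | zero => intro x hx; simpa using hx
          | succ j ih =>
            intro x hx
            rw [pow_succ', mul_assoc]
            exact (hstep _ (ih x hx)).1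
        have hcb : c * b ∉ (M k).support := by
          intro h7
          have h8 := hiter (m' - 1) _ h7
          rw [← mul_assoc, ← pow_succ, Nat.sub_add_cancel hm', hcm, one_mul] at h8
          exact hb h8
        rw [Finsupp.notMem_support_iff] at hb hcb
        rw [hb, hcb]
    · refine ⟨0, fun h1 h2 => absurd ⟨h1, h2⟩ hc⟩
  choose Nb hNb using hbad
  let T : Finset ℤ_[p] := (tor_finite (p := p)).toFinset
  refine ⟨max (N₁ + 1) (max N₂ (T.sup Nb)), ?_⟩
  intro n hn K _ _ z hz i hi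
  constructor
  · intro hall
    obtain ⟨m, rfl⟩ : ∃ m, n = m + 1 := ⟨n - 1, by omega⟩
    have hip : ¬ (p : ℤ_[p]) ∣ (i : ℤ_[p]) := by
      intro h1
      rw [← PadicInt.norm_lt_one_iff_dvd] at h1
      have h2 : ‖(i : ℤ_[p])‖ = 1 := by
        rw [PadicInt.norm_natCast_eq_one_iff]
        exact hi.symm
      rw [h2] at h1
      exact lt_irrefl _ h1
    obtain ⟨c, hc, hic⟩ := hN₂ (m + 1) (by omega) (i : ℤ_[p]) hip (by
      intro b hb
      obtain ⟨b', hb', hbb⟩ := exists_of_invariant hz (M k₀) (hN₁ m (by omega)) hi (hall k₀) hb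
      refine ⟨b', hb', ?_⟩
      obtain ⟨t, ht⟩ := exists_mul_pow (m + 1) b
      obtain ⟨t', ht'⟩ := exists_mul_pow (m + 1) b'
      have h3 := Nat.div_add_mod (i * res (m + 1) b) (p ^ (m + 1))
      rw [hbb] at h3
      have h4 : (i : ℤ_[p]) * (res (m + 1) b : ℤ_[p]) =
          (p : ℤ_[p]) ^ (m + 1) * ((i * res (m + 1) b / p ^ (m + 1) : ℕ) : ℤ_[p]) +
            (res (m + 1) b' : ℤ_[p]) := by
        exact_mod_cast h3.symm
      refine ⟨((i * res (m + 1) b / p ^ (m + 1) : ℕ) : ℤ_[p]) + i * t - t', ?_⟩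
      conv_lhs => rw [ht, ht']
      linear_combination h4)
    refine ⟨c, ?_, hic⟩
    by_contra hns
    have hcT : c ∈ T := by
      rw [Set.Finite.mem_toFinset]
      exact hc
    have hle : Nb c ≤ T.sup Nb := Finset.le_sup hcT
    exact hNb c hc hns (m + 1) (by omega) K z hz i hi hic hall
  · rintro ⟨c, ⟨hc, hM⟩, hic⟩ k
    exact sum_of_sym hz.pow_eq_one (M k) hc (hM k) hic

end Pool.Agent.Y701.ZT
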