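import Mathlib
import Pool.Agent.KS6_3.ZL.Y701.ZT.Fin
import Pool.Agent.KS6_3.ZL.Y701.ZT.Mult

/-!
The field generated by the coefficients of the `L`-function of a character of order `p ^ n`.
-/

set_option autoImplicit false

open IntermediateField

namespace Pool.Agent.Y701.ZT

open Pool.Agent.H387R3.ZT Pool.Agent.H707R3 Pool.Agent.H412R3.ZT Pool.Agent.W90.ZT

variable {p : ℕ} [Fact p.Prime]

/-- The ramification index of a finite extension is positive and at most the degree. -/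
theorem ramIdx_bound (K : IntermediateField ℚ_[p] ℂ_[p]) [FiniteDimensional ℚ_[p] K] :
    ramIdx K ≠ 0 ∧ ramIdx K ≤ Module.finrank ℚ_[p] K := by
  have hdep : DepBound (⊥ : IntermediateField ℚ_[p] ℂ_[p]) K (Module.finrank ℚ_[p] K) := by
    intro x hx
    let y : Fin (Module.finrank ℚ_[p] K + 1) → K := fun i => ⟨x i, hx i⟩
    have hdep : ¬ LinearIndependent ℚ_[p] y := by
      intro hli
      have := hli.fintype_card_le_finrank
      simp at this
    rw [Fintype.not_linearIndependent_iff] at hdep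
    obtain ⟨g, hg, i, hi⟩ := hdep
    refine ⟨fun i => algebraMap ℚ_[p] ℂ_[p] (g i), fun i => IntermediateField.algebraMap_mem _ _,
      ⟨i, by simpa using hi⟩, ?_⟩
    have := congrArg (fun z : K => (z : ℂ_[p])) hg
    simpa [y, Algebra.smul_def] using this
  exact relIndex_le hdep

theorem finrank_cyc {m : ℕ} {z : ℂ_[p]} (hz : IsPrimitiveRoot z (p ^ (m + 1))) :
    Module.finrank ℚ_[p] ℚ_[p]⟮z⟯ = Nat.totient (p ^ (m + 1)) ∧
      ramIdx ℚ_[p]⟮z⟯ = Nat.totient (p ^ (m + 1)) := by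
  have hp : p.Prime := Fact.out
  have hne : NeZero (p ^ (m + 1)) := ⟨pow_ne_zero _ hp.ne_zero⟩
  have hint : IsIntegral ℚ_[p] z := isIntegral_root hz
  have hfd : FiniteDimensional ℚ_[p] ℚ_[p]⟮z⟯ := adjoin.finiteDimensional hint
  obtain ⟨h0, h1⟩ := ramIdx_bound ℚ_[p]⟮z⟯
  have h2 := totient_le_ramIdx hz (mem_adjoin_simple_self ℚ_[p] z) h0
  have h3 : Module.finrank ℚ_[p] ℚ_[p]⟮z⟯ ≤ Nat.totient (p ^ (m + 1)) := by
    rw [IntermediateField.adjoin.finrank hint]
    have hdvd : minpoly ℚ_[p] z ∣ Polynomial.cyclotomic (p ^ (m + 1)) ℚ_[p] := by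
      apply minpoly.dvd
      rw [Polynomial.aeval_def, Polynomial.eval₂_eq_eval_map, Polynomial.map_cyclotomic]
      have hne : NeZero ((p ^ (m + 1) : ℕ) : ℂ_[p]) := ⟨by
        exact_mod_cast (pow_ne_zero (m + 1) hp.ne_zero : p ^ (m + 1) ≠ 0)⟩
      exact (Polynomial.isRoot_cyclotomic_iff.2 hz)
    have := Polynomial.natDegree_le_of_dvd hdvd (Polynomial.cyclotomic_ne_zero _ _)
    rwa [Polynomial.natDegree_cyclotomic] at this
  exact ⟨le_antisymm h3 (h2.trans h1), le_antisymm (h1.trans h3) h2⟩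

/-- The subfield on which two embeddings agree. -/
def eqk {k₀ T Ω : Type} [Field k₀] [Field T] [Field Ω] [Algebra k₀ T] [Algebra k₀ Ω]
    (φ φ' : T →ₐ[k₀] Ω) : IntermediateField k₀ T where
  carrier := {t | φ t = φ' t}
  mul_mem' := by
    intro a b ha hb
    simp only [Set.mem_ofPred_eq] at ha hb ⊢
    rw [map_mul, map_mul, ha, hb]
  add_mem' := by
    intro a b ha hb
    simp only [Set.mem_ofPred_eq] at ha hb ⊢
    rw [map_add, map_add, ha, hb]
  algebraMap_mem' := by
    intro r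
    simp
  inv_mem' := by
    intro a ha
    simp only [Set.mem_ofPred_eq] at ha ⊢
    rw [map_inv₀, map_inv₀, ha]

/-- Values at a `p ^ n`-th root of unity of the formal sums `M k`. -/
noncomputable def val (M : ℕ → ℤ_[p] →₀ ℕ) (n : ℕ) {K : Type} [Field K] (z : K) (k : ℕ) : K :=
  ∑ b ∈ (M k).support, (M k b : K) * z ^ res n b

lemma map_val (M : ℕ → ℤ_[p] →₀ ℕ) (n : ℕ) {K K' : Type} [Field K] [Field K'] (φ : K →+* K')
    (z : K) (k : ℕ) : φ (val M n z k) = val M n (φ z) k := by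
  simp only [val, map_sum, map_mul, map_natCast, map_pow]

lemma finrank_gen {k₀ Ω : Type} [Field k₀] [Field Ω] [Algebra k₀ Ω] (M : IntermediateField k₀ Ω)
    (z : Ω) : Module.finrank k₀ (M⟮z⟯.restrictScalars k₀) =
      Module.finrank k₀ M * Module.finrank M M⟮z⟯ :=
  (Module.finrank_mul_finrank k₀ M M⟮z⟯).symm

/-- **Exact degree.** -/
theorem exact_field (M : ℕ → ℤ_[p] →₀ ℕ) (k₀ : ℕ) {b₀ : ℤ_[p]} (hb₀ : b₀ ∈ (M k₀).support)
    (hu : IsUnit b₀) :
    ∃ h : ℕ, 0 < h ∧ h ∣ Nat.totient (q0 p) ∧ ∃ N : ℕ, ∀ n, N ≤ n → ∀ z : ℂ_[p],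
      IsPrimitiveRoot z (p ^ n) →
        Module.finrank ℚ_[p] (IntermediateField.adjoin ℚ_[p] (Set.range (val M n z))) * h =
          Nat.totient (p ^ n) ∧
        ramIdx (IntermediateField.adjoin ℚ_[p] (Set.range (val M n z))) * h =
          Nat.totient (p ^ n) := by
  classical
  have hp : p.Prime := Fact.out
  obtain ⟨N, hN⟩ := exists_sym M k₀ hb₀ hu
  have hHfin : {c : ℤ_[p] | IsSym M c}.Finite := tor_finite.subset fun c hc => hc.1
  set H : Set ℤ_[p] := {c : ℤ_[p] | IsSym M c} with hH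
  have h1H : (1 : ℤ_[p]) ∈ H := ⟨⟨1, one_pos, one_pow 1⟩, fun k b => by rw [one_mul]⟩
  have hpos : 0 < H.ncard := (Set.ncard_pos hHfin).2 ⟨1, h1H⟩
  have main : ∀ n, max N 2 ≤ n → ∀ z : ℂ_[p], IsPrimitiveRoot z (p ^ n) →
      H.ncard ∣ Nat.totient (q0 p) ∧
      Module.finrank ℚ_[p] (IntermediateField.adjoin ℚ_[p] (Set.range (val M n z))) * H.ncard =
          Nat.totient (p ^ n) ∧
        ramIdx (IntermediateField.adjoin ℚ_[p] (Set.range (val M n z))) * H.ncard =
          Nat.totient (p ^ n) := by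
    intro n hn z hz
    obtain ⟨m, rfl⟩ : ∃ m, n = m + 1 := ⟨n - 1, by omega⟩
    have hne : NeZero (p ^ (m + 1)) := ⟨pow_ne_zero _ hp.ne_zero⟩
    have hq0 : NeZero (q0 p) := ⟨by
      unfold q0
      split_ifs
      · norm_num
      · exact hp.ne_zero⟩
    obtain ⟨hdeg, hram⟩ := finrank_cyc hz
    set C := IntermediateField.adjoin ℚ_[p] (Set.range (val M (m + 1) z)) with hC
    have hzint : IsIntegral ℚ_[p] z := isIntegral_root hz
    have hWfd : FiniteDimensional ℚ_[p] ℚ_[p]⟮z⟯ := adjoin.finiteDimensional hzint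
    have hcyc : IsCyclotomicExtension {p ^ (m + 1)} ℚ_[p] ℚ_[p]⟮z⟯ := cyclo hz
    have hgal : IsGalois ℚ_[p] ℚ_[p]⟮z⟯ :=
      IsCyclotomicExtension.isGalois {p ^ (m + 1)} ℚ_[p] ℚ_[p]⟮z⟯
    set g := AdjoinSimple.gen ℚ_[p] z with hg0
    have hg : IsPrimitiveRoot g (p ^ (m + 1)) := gen_prim (L := ℚ_[p]) hz
    have hgz : algebraMap ℚ_[p]⟮z⟯ ℂ_[p] g = z := AdjoinSimple.algebraMap_gen ℚ_[p] z
    let ι : ℚ_[p]⟮z⟯ →ₐ[ℚ_[p]] ℂ_[p] := ℚ_[p]⟮z⟯.val
    have hιval : ∀ k, ι (val M (m + 1) g k) = val M (m + 1) z k := by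
      intro k
      have := map_val M (m + 1) (ι : ℚ_[p]⟮z⟯ →+* ℂ_[p]) g k
      exact this
    have hCW : C ≤ ℚ_[p]⟮z⟯ := by
      rw [hC, IntermediateField.adjoin_le_iff]
      rintro x ⟨k, rfl⟩
      rw [← hιval]
      exact (val M (m + 1) g k).2
    let C' : IntermediateField ℚ_[p] ℚ_[p]⟮z⟯ := C.comap ι
    have hC'map : C'.map ι = C := by
      ext y
      constructor
      · rintro ⟨t, ht, rfl⟩
        exact ht
      · intro hy
        exact ⟨⟨y, hCW hy⟩, hy, rfl⟩
    have hCrank : Module.finrank ℚ_[p] C' = Module.finrank ℚ_[p] C := by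
      conv_rhs => rw [← hC'map]
      exact (IntermediateField.equivMap C' ι).toLinearEquiv.finrank_eq
    -- the fixing subgroup
    have hfixiff : ∀ τ : ℚ_[p]⟮z⟯ ≃ₐ[ℚ_[p]] ℚ_[p]⟮z⟯, τ ∈ C'.fixingSubgroup ↔
        ∀ k, val M (m + 1) (τ g) k = val M (m + 1) g k := by
      intro τ
      rw [IntermediateField.mem_fixingSubgroup_iff]
      constructor
      · intro hτ k
        have h2 : val M (m + 1) g k ∈ C' := by
          show ι (val M (m + 1) g k) ∈ C
          rw [hιval, hC]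
          exact IntermediateField.subset_adjoin _ _ ⟨k, rfl⟩
        have h3 := hτ _ h2
        have h4 := map_val M (m + 1) (τ : ℚ_[p]⟮z⟯ →+* ℚ_[p]⟮z⟯) g k
        have h5 : τ (val M (m + 1) g k) = val M (m + 1) (τ g) k := h4
        rw [← h5, h3]
      · intro hτ x hx
        let Eq : IntermediateField ℚ_[p] ℚ_[p]⟮z⟯ := eqk (ι.comp τ.toAlgHom) ι
        have h6 : C ≤ Eq.map ι := by
          rw [hC, IntermediateField.adjoin_le_iff]
          rintro y ⟨k, rfl⟩
          refine ⟨val M (m + 1) g k, ?_, hιval k⟩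
          show ι (τ (val M (m + 1) g k)) = ι (val M (m + 1) g k)
          have h4 := map_val M (m + 1) (τ : ℚ_[p]⟮z⟯ →+* ℚ_[p]⟮z⟯) g k
          have h5 : τ (val M (m + 1) g k) = val M (m + 1) (τ g) k := h4
          rw [h5, hτ k]
        have hx' : ι x ∈ C := hx
        obtain ⟨y, hy, hyx⟩ := h6 hx'
        have h7 : y = x := ι.injective hyx
        rw [h7] at hy
        have h8 : ι (τ x) = ι x := hy
        exact ι.injective h8
    -- all exponents occur
    have hinj := hg.autToPow_injective (K := ℚ_[p])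
    have hbij : Function.Bijective (hg.autToPow ℚ_[p]) := by
      rw [Nat.bijective_iff_injective_and_card]
      refine ⟨hinj, ?_⟩
      rw [IsGalois.card_aut_eq_finrank, hdeg, Nat.card_eq_fintype_card,
        ZMod.card_units_eq_totient]
    have hspec : ∀ τ : ℚ_[p]⟮z⟯ ≃ₐ[ℚ_[p]] ℚ_[p]⟮z⟯,
        τ g = g ^ ((hg.autToPow ℚ_[p] τ : (ZMod (p ^ (m + 1)))ˣ) : ZMod (p ^ (m + 1))).val :=
      fun τ => (hg.autToPow_spec ℚ_[p] τ).symm
    have hcopr : ∀ a : (ZMod (p ^ (m + 1)))ˣ, Nat.Coprime ((a : ZMod (p ^ (m + 1))).val) p := by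
      intro a
      exact Nat.Coprime.coprime_dvd_right (dvd_pow_self p (by omega)) (ZMod.val_coe_unit_coprime a)
    have hmem : ∀ τ : ℚ_[p]⟮z⟯ ≃ₐ[ℚ_[p]] ℚ_[p]⟮z⟯, τ ∈ C'.fixingSubgroup ↔
        ∃ c : ℤ_[p], IsSym M c ∧ (p : ℤ_[p]) ^ (m + 1) ∣
          ((((hg.autToPow ℚ_[p] τ : (ZMod (p ^ (m + 1)))ˣ) : ZMod (p ^ (m + 1))).val : ℕ) : ℤ_[p])
            - c := by
      intro τ
      rw [hfixiff, ← hN (m + 1) (by omega) ℚ_[p]⟮z⟯ g hg _ (hcopr _)]
      rw [hspec τ]
      rfl
    -- residues of symmetries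
    have hunit : ∀ c : ℤ_[p], IsTor c → IsUnit (PadicInt.toZModPow (p := p) (m + 1) c) := by
      rintro c ⟨r, hr, hc⟩
      apply IsUnit.of_pow_eq_one (n := r) _ hr.ne'
      rw [← map_pow, hc, map_one]
    have hres : ∀ (x : ZMod (p ^ (m + 1))) (c : ℤ_[p]),
        (p : ℤ_[p]) ^ (m + 1) ∣ ((x.val : ℕ) : ℤ_[p]) - c ↔
          PadicInt.toZModPow (p := p) (m + 1) c = x := by
      intro x c
      rw [← Ideal.mem_span_singleton, ← PadicInt.ker_toZModPow, RingHom.mem_ker, map_sub,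
        map_natCast, ZMod.natCast_val, ZMod.cast_id', id, sub_eq_zero, eq_comm]
    have htorinj : ∀ c c' : ℤ_[p], IsTor c → IsTor c' →
        PadicInt.toZModPow (p := p) (m + 1) c = PadicInt.toZModPow (p := p) (m + 1) c' →
        c = c' := by
      rintro c c' ⟨r, hr, hc⟩ ⟨r', hr', hc'⟩ heq
      have h1 : c * c' ^ (r' - 1) = 1 := by
        apply torsion_eq_one (m := r * r') (Nat.mul_pos hr hr')
        · rw [mul_pow, pow_mul, hc, one_pow, one_mul, ← pow_mul, mul_comm, mul_comm r r',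
            mul_assoc, pow_mul, hc', one_pow]
        · have h2 : PadicInt.toZModPow (p := p) (m + 1) (c * c' ^ (r' - 1) - 1) = 0 := by
            rw [map_sub, map_mul, heq, ← map_mul, ← pow_succ', Nat.sub_add_cancel hr', hc',
              map_one, sub_self]
          have h3 : c * c' ^ (r' - 1) - 1 ∈ RingHom.ker (PadicInt.toZModPow (p := p) (m + 1)) :=
            h2
          rw [PadicInt.ker_toZModPow, Ideal.mem_span_singleton] at h3
          refine dvd_trans ?_ h3
          obtain ⟨t, ht⟩ := q0_dvd (p := p) (by omega : 2 ≤ m + 1)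
          refine ⟨(t : ℤ_[p]), ?_⟩
          have h4 := congrArg (Nat.cast (R := ℤ_[p])) ht
          push_cast at h4
          exact h4
      have h5 : c' ^ (r' - 1) * c' = 1 := by
        rw [← pow_succ, Nat.sub_add_cancel hr', hc']
      calc c = c * (c' ^ (r' - 1) * c') := by rw [h5, mul_one]
        _ = (c * c' ^ (r' - 1)) * c' := by ring
        _ = c' := by rw [h1, one_mul]
    -- the bijection
    let e := MulEquiv.ofBijective (hg.autToPow ℚ_[p]) hbij
    let ψ : H → C'.fixingSubgroup := fun c => ⟨e.symm (hunit c.1 c.2.1).unit, by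
      rw [hmem]
      refine ⟨c.1, c.2, ?_⟩
      rw [hres]
      have h9 : (hg.autToPow ℚ_[p]) (e.symm (hunit c.1 c.2.1).unit) =
          (hunit c.1 c.2.1).unit := e.apply_symm_apply _
      rw [h9, IsUnit.unit_spec]⟩
    have hψ : Function.Bijective ψ := by
      constructor
      · intro c c' hcc
        have h10 : (hunit c.1 c.2.1).unit = (hunit c'.1 c'.2.1).unit :=
          e.symm.injective (congrArg Subtype.val hcc)
        have h11 := congrArg (fun u : (ZMod (p ^ (m + 1)))ˣ => (u : ZMod (p ^ (m + 1)))) h10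
        simp only [IsUnit.unit_spec] at h11
        exact Subtype.ext (htorinj _ _ c.2.1 c'.2.1 h11)
      · rintro ⟨τ, hτ⟩
        obtain ⟨c, hc, hcd⟩ := (hmem τ).1 hτ
        refine ⟨⟨c, hc⟩, ?_⟩
        apply Subtype.ext
        apply e.injective
        show e (e.symm (hunit c hc.1).unit) = e τ
        rw [MulEquiv.apply_symm_apply]
        apply Units.ext
        rw [IsUnit.unit_spec]
        exact (hres _ _).1 hcd
    have hcard : Nat.card C'.fixingSubgroup = H.ncard := by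
      rw [← Nat.card_congr (Equiv.ofBijective ψ hψ), Nat.card_coe_set_eq]
    have hfin2 : Module.finrank C' ℚ_[p]⟮z⟯ = H.ncard := by
      rw [← hcard, IsGalois.card_fixingSubgroup_eq_finrank]
    have hdegC : Module.finrank ℚ_[p] C * H.ncard = Nat.totient (p ^ (m + 1)) := by
      rw [← hCrank, ← hfin2, ← hdeg]
      exact Module.finrank_mul_finrank ℚ_[p] C' ℚ_[p]⟮z⟯
    refine ⟨?_, hdegC, ?_⟩
    · -- the order divides
      let f : C'.fixingSubgroup →* (ZMod (q0 p))ˣ :=
        ((ZMod.unitsMap (q0_dvd (p := p) (by omega : 2 ≤ m + 1))).comp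
          (hg.autToPow ℚ_[p])).comp (Subgroup.subtype _)
      have hf : Function.Injective f := by
        rw [injective_iff_map_eq_one]
        rintro ⟨τ, hτ⟩ hτ1
        obtain ⟨c, hc, hcd⟩ := (hmem τ).1 hτ
        set a : (ZMod (p ^ (m + 1)))ˣ := hg.autToPow ℚ_[p] τ with ha
        have h3 : ((a : ZMod (p ^ (m + 1))).val : ZMod (q0 p)) = 1 := by
          have h4 := congrArg (fun u : (ZMod (q0 p))ˣ => (u : ZMod (q0 p))) hτ1
          simp only [f, MonoidHom.comp_apply, ZMod.unitsMap_val, Units.val_one] at h4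
          rw [ZMod.natCast_val]
          exact h4
        have h5 : (a : ZMod (p ^ (m + 1))).val ≡ 1 [MOD q0 p] := by
          rw [← ZMod.natCast_eq_natCast_iff, h3, Nat.cast_one]
        have h7 := tors_modEq (by omega : 2 ≤ m + 1) ⟨c, hc.1, hcd⟩ h5
        have h8 : a = 1 := by
          apply Units.ext
          rw [Units.val_one]
          have h9 : (((a : ZMod (p ^ (m + 1))).val : ℕ) : ZMod (p ^ (m + 1))) =
              ((1 : ℕ) : ZMod (p ^ (m + 1))) := by
            rw [ZMod.natCast_eq_natCast_iff]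
            exact h7
          rwa [ZMod.natCast_val, ZMod.cast_id', id, Nat.cast_one] at h9
        apply Subtype.ext
        apply hinj
        show hg.autToPow ℚ_[p] τ = hg.autToPow ℚ_[p] 1
        rw [map_one]
        exact h8
      have h := Subgroup.card_dvd_of_injective f hf
      rwa [Nat.card_eq_fintype_card (α := (ZMod (q0 p))ˣ), ZMod.card_units_eq_totient,
        hcard] at h
    · -- total ramification
      have hCfd : FiniteDimensional ℚ_[p] C := by
        apply Module.finite_of_finrank_pos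
        rcases Nat.eq_zero_or_pos (Module.finrank ℚ_[p] C) with h0 | h0
        · rw [h0, zero_mul] at hdegC
          exact absurd hdegC.symm (Nat.totient_pos.2 (pow_pos hp.pos _)).ne'
        · exact h0
      have hCz : C⟮z⟯.restrictScalars ℚ_[p] = ℚ_[p]⟮z⟯ := by
        apply le_antisymm
        · intro x hx
          have h12 : C⟮z⟯ ≤ (IntermediateField.extendScalars hCW) := by
            rw [IntermediateField.adjoin_simple_le_iff]
            exact mem_adjoin_simple_self ℚ_[p] z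
          exact h12 hx
        · rw [IntermediateField.adjoin_simple_le_iff]
          exact mem_adjoin_simple_self C z
      have hCzfd : FiniteDimensional C C⟮z⟯ := adjoin.finiteDimensional (isIntegral_root hz)
      have hmul := finrank_gen C z
      have h14 : Module.finrank C C⟮z⟯ = H.ncard := by
        rw [hCz, hdeg, ← hdegC] at hmul
        have h0 : 0 < Module.finrank ℚ_[p] C := Module.finrank_pos
        exact (Nat.eq_of_mul_eq_mul_left h0 hmul).symm
      obtain ⟨h15, h16⟩ := relIndex_le (depBound_of_finrank C⟮z⟯)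
      rw [hCz, h14] at h16
      have hmulram : ramIdx C * (valGroup C).relIndex (valGroup ℚ_[p]⟮z⟯) = ramIdx ℚ_[p]⟮z⟯ :=
        Subgroup.relIndex_mul_relIndex _ _ _ (valGroup_mono bot_le) (valGroup_mono hCW)
      obtain ⟨h17, h18⟩ := ramIdx_bound C
      apply le_antisymm
      · calc ramIdx C * H.ncard ≤ Module.finrank ℚ_[p] C * H.ncard := Nat.mul_le_mul_right _ h18
          _ = Nat.totient (p ^ (m + 1)) := hdegC
      · calc Nat.totient (p ^ (m + 1)) = ramIdx C * (valGroup C).relIndex (valGroup ℚ_[p]⟮z⟯) := by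
              rw [hmulram, hram]
          _ ≤ ramIdx C * H.ncard := Nat.mul_le_mul_left _ h16
  refine ⟨H.ncard, hpos, ?_, max N 2, fun n hn z hz => (main n hn z hz).2⟩
  -- a primitive root exists
  have hne : NeZero (p ^ (max N 2)) := ⟨pow_ne_zero _ hp.ne_zero⟩
  have hne' : NeZero ((p ^ (max N 2) : ℕ) : ℂ_[p]) := ⟨by exact_mod_cast hne.out⟩
  obtain ⟨z, hz⟩ := IsAlgClosed.exists_root (Polynomial.cyclotomic (p ^ (max N 2)) ℂ_[p])
    (Polynomial.degree_cyclotomic_pos _ _ (Nat.pos_of_ne_zero hne.out)).ne'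
  exact (main (max N 2) le_rfl z (Polynomial.isRoot_cyclotomic_iff.1 hz)).1

theorem Lfun_exact {k F E : Type} [Field k] [Finite k] [CharP k p]
    [Field F] [Algebra k F] [Field E] [Algebra F E] [Algebra k E] [IsScalarTower k F E]
    (h : IsZpTower k F E p) :
    ∃ r : ℕ, 0 < r ∧ r ∣ Nat.totient (q0 p) ∧ ∃ N : ℕ, ∀ n, N ≤ n →
      ∀ χ : (E ≃ₐ[F] E) →* ℂ_[p]ˣ, orderOf χ = p ^ n →
        Module.finrank ℚ_[p] (IntermediateField.adjoin ℚ_[p]
          (Set.range fun j => PowerSeries.coeff j (Lfun k χ))) * r = Nat.totient (p ^ n) ∧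
        ramIdx (IntermediateField.adjoin ℚ_[p]
          (Set.range fun j => PowerSeries.coeff j (Lfun k χ))) * r = Nat.totient (p ^ n) := by
  classical
  have hp : p.Prime := Fact.out
  obtain ⟨Φ⟩ := h.group
  obtain ⟨v₀, hv₀, hv₀'⟩ := exists_unit_frob h Φ
  let ι := {v : Place k F // v.IsUnramified E}
  let ρ : ι → ℤ_[p] := fun v => (Φ (v.1.frob E)).toAdd
  let d : ι → ℕ := fun v => v.1.deg
  have hd : ∀ v, d v ≠ 0 := fun v => deg_ne_zero h.base v.1
  have hfin : ∀ m, {v : ι | d v ≤ m}.Finite := by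
    intro m
    exact (finite_deg_le h.base m).preimage Subtype.val_injective.injOn
  let M : ℕ → ℤ_[p] →₀ ℕ := fun j => (theta ρ d (hfin j).toFinset j).coeff
  have hb₀ : ρ ⟨v₀, hv₀⟩ ∈ (M (d ⟨v₀, hv₀⟩)).support :=
    mem_support_theta ρ d _ (by simp) (hd _)
  have hunit : IsUnit (ρ ⟨v₀, hv₀⟩) := by
    rw [PadicInt.isUnit_iff]
    by_contra hne
    apply hv₀'
    rw [← PadicInt.norm_lt_one_iff_dvd]
    exact lt_of_le_of_ne (PadicInt.norm_le_one _) hne
  obtain ⟨r, hr0, hr, N, hN⟩ := exact_field M _ hb₀ hunit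
  refine ⟨r, hr0, hr, N, ?_⟩
  intro n hn χ hχ
  obtain ⟨hz, hval⟩ := char_eq Φ.toMulEquiv χ hχ
  set z : ℂ_[p] := ((χ (Φ.toMulEquiv.symm (Multiplicative.ofAdd 1)) : ℂ_[p]ˣ) : ℂ_[p]) with hzdef
  have hE : Lfun k χ = eulerL ρ d n z := by
    rw [Lfun, eulerL]
    congr 1
    funext v
    rw [hval (v.1.frob E)]
    rfl
  have hcoeff : (fun j => PowerSeries.coeff j (Lfun k χ)) = val M n z := by
    funext j
    rw [hE, coeff_eulerL ρ d hd hfin hz.pow_eq_one]
    rfl
  rw [hcoeff]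
  exact hN n hn z hz

end Pool.Agent.Y701.ZT
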